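import Pool.Agent.L0h13.SD.Stm

/-!
# The sign of the exchange of two adjacent letters (module ADJ of helper13)
-/

set_option autoImplicit false

namespace Pool.Agent.L0h78.SD

open Pool.Agent.L0h13.SD Equiv

theorem t_ADJ : S_ADJ := by
  intro m r N i w
  unfold eps
  rw [Finset.prod_eq_single (i.castSucc, i.succ)]
  · rw [if_pos]
    refine ⟨Fin.castSucc_lt_succ, ?_⟩
    simp only [swap_apply_left, swap_apply_right]
    exact Fin.castSucc_lt_succ
  · rintro ⟨p, q⟩ _ hne
    rw [if_neg]
    rintro ⟨h1, h2⟩
    apply hne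
    simp only [swap_apply_def] at h1 h2
    simp only [Fin.lt_def] at h1
    rw [Prod.mk.injEq, Fin.ext_iff, Fin.ext_iff]
    split_ifs at h2 <;> simp only [Fin.ext_iff, Fin.lt_def, Fin.val_castSucc, Fin.val_succ] at * <;>
      omega
  · intro h
    exact absurd (Finset.mem_univ _) h

end Pool.Agent.L0h78.SD
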